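import Mathlib
import Pool.Agent.Lib.MP_c22f6b_an.StripC45

set_option autoImplicit false

namespace Pool.Agent.Results.MP_c22f6b_an.Ahlfors

open MeasureTheory Metric
open scoped ENNReal
open Pool.Agent.Lib.MP_c22f6b_an

private lemma prod_inv (K : ℕ → ℕ) (hK : ∀ j, 0 < K j) (j : ℕ) :
    ∏ l ∈ Finset.range j, (K l : ℝ≥0∞)⁻¹ = ENNReal.ofReal (∏ l ∈ Finset.range j, (K l : ℝ))⁻¹ := by
  rw [← Finset.prod_inv_distrib, ENNReal.ofReal_prod_of_nonneg fun l _ => by positivity]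
  refine Finset.prod_congr rfl fun l _ => ?_
  rw [ENNReal.ofReal_inv_of_pos (by exact_mod_cast hK l), ENNReal.ofReal_natCast]

private lemma fails (e M : ℕ) (hM : 3 ≤ M) (v u R : ℕ → ℤ)
    (hv : ∀ j, 8 * (M : ℤ) ^ j ≤ 5 * v j ∧ v j ≤ 4 * (M : ℤ) ^ j)
    (hR : ∀ N j, N ^ 2 ≤ j → j < N ^ 2 + N → v j ^ 2 + (R N + u j) ^ 2 = R N ^ 2)
    (μ : Measure (Tor (e + 2))) [IsProbabilityMeasure μ]
    (h : ∀ᵐ x ∂μ, ∀ j, ‖UnitAddTorus.mFourier
      (Fin.cons (v j) (Fin.cons (u j) 0) : Fin (e + 2) → ℤ) x - 1‖ ≤ 1 / 2) (N : ℕ) :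
    ∃ (n : ℕ) (S : Finset (Fin (e + 2) → ℤ)), S.card = N ∧ (∀ k ∈ S, ∑ i, k i ^ 2 = (n : ℤ)) ∧
      ((N : ℝ) / 2) ^ 2 ≤ ∫ x, ‖∑ k ∈ S, UnitAddTorus.mFourier k x‖ ^ 2 ∂μ := by
  have hM' : (3 : ℤ) ≤ M := by exact_mod_cast hM
  have hmono : StrictMono v := strictMono_nat_of_lt_succ fun j => by
    have h1 := (hv j).2
    have h2 := (hv (j + 1)).1
    have h3 : (0 : ℤ) < M ^ j := by positivity
    rw [pow_succ] at h2
    nlinarith
  let ξ : ℕ → Fin (e + 2) → ℤ := fun j => Fin.cons (v j) (Fin.cons (u j) 0)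
  let k₀ : Fin (e + 2) → ℤ := Fin.cons 0 (Fin.cons (R N) 0)
  have hinj : Function.Injective fun j => k₀ + ξ j := fun i j hij =>
    hmono.injective (by simpa [ξ] using congrFun (add_left_cancel hij) 0)
  set T := Finset.Ico (N ^ 2) (N ^ 2 + N) with hT
  have hc : T.card = N := by simp [hT]
  refine ⟨(R N ^ 2).toNat, T.image fun j => k₀ + ξ j,
    by rw [Finset.card_image_of_injective _ hinj, hc], fun k hk => ?_, ?_⟩
  · obtain ⟨j, hj, rfl⟩ := Finset.mem_image.1 hk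
    rw [Int.toNat_of_nonneg (by positivity), Fin.sum_univ_succ, Fin.sum_univ_succ,
      ← hR N j (Finset.mem_Ico.1 hj).1 (Finset.mem_Ico.1 hj).2]
    simp only [k₀, ξ, Pi.add_apply, Fin.cons_zero, Fin.cons_succ]
    simp
  · have h1 : ∫ _ : Tor (e + 2), ((N : ℝ) / 2) ^ 2 ∂μ = ((N : ℝ) / 2) ^ 2 := by simp
    rw [← h1]
    refine integral_mono_ae (integrable_const _) (Continuous.integrable_of_hasCompactSupport
      (by fun_prop) (HasCompactSupport.of_compactSpace _)) ?_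
    filter_upwards [h] with x hx
    rw [Finset.sum_image fun a _ b _ hab => hinj hab]
    simp only [UnitAddTorus.mFourier_add]
    have h2 : ‖UnitAddTorus.mFourier k₀ x‖ = 1 := by
      simp [UnitAddTorus.mFourier, fourier_apply, Circle.norm_coe]
    rw [← Finset.mul_sum, norm_mul, h2, one_mul]
    have h3 : ‖∑ j ∈ T, (UnitAddTorus.mFourier (ξ j) x - 1)‖ ≤ (N : ℝ) / 2 := by
      refine (norm_sum_le _ _).trans ((Finset.sum_le_sum fun j _ => hx j).trans ?_)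
      rw [Finset.sum_const, nsmul_eq_mul, hc]
      linarith
    rw [Finset.sum_sub_distrib, Finset.sum_const, nsmul_eq_mul, mul_one, hc] at h3
    have h4 := norm_sub_norm_le (N : ℂ) (∑ j ∈ T, UnitAddTorus.mFourier (ξ j) x)
    rw [norm_sub_rev, Complex.norm_natCast] at h4
    gcongr
    linarith

/-- For every `d ≥ 2` and `0 < α < d` there is a two-sided (Ahlfors) `α`-regular Borel probability
measure on the flat torus for which the trace inequality for Laplace eigenfunctions fails. -/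
theorem result (d : ℕ) (hd : 2 ≤ d) (α : ℝ) (hα0 : 0 < α) (hα : α < d) :
    ∃ μ : Measure (Fin d → UnitAddCircle), IsProbabilityMeasure μ ∧
      (∃ C : ℝ, ∀ (x₀ : Fin d → UnitAddCircle) (r : ℝ), 0 < r →
        μ {x | Real.sqrt (∑ i, ‖x i - x₀ i‖ ^ 2) < r} ≤ ENNReal.ofReal (C * r ^ α)) ∧
      (∃ c : ℝ, 0 < c ∧ ∀ x₀ ∈ μ.support, ∀ r : ℝ, 0 < r → r ≤ 1 →
        ENNReal.ofReal (c * r ^ α) ≤ μ {x | Real.sqrt (∑ i, ‖x i - x₀ i‖ ^ 2) < r}) ∧
      ¬ ∃ C : ℝ, ∀ (n : ℕ) (S : Finset (Fin d → ℤ)) (a : (Fin d → ℤ) → ℂ),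
        (∀ k ∈ S, ∑ i, k i ^ 2 = (n : ℤ)) →
        ∫ x, ‖∑ k ∈ S, a k * UnitAddTorus.mFourier k x‖ ^ 2 ∂μ ≤
          C * ∫ x : Fin d → UnitAddCircle, ‖∑ k ∈ S, a k * UnitAddTorus.mFourier k x‖ ^ 2 := by
  have hd' : (2 : ℝ) ≤ d := by exact_mod_cast hd
  have hdα : 0 < (d : ℝ) - α := by linarith
  obtain ⟨m, hm⟩ := exists_nat_ge (max 2 ((256 : ℝ) ^ ((d : ℝ) - α)⁻¹))
  have hm2 : (2 : ℝ) ≤ m := (le_max_left _ _).trans hm
  have hm2' : 2 ≤ m := by exact_mod_cast hm2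
  set M : ℕ := 128 * m with hM
  have hM' : (M : ℝ) = 128 * m := by rw [hM]; push_cast; ring
  have hM1 : (1 : ℝ) < M := by linarith
  have hM0 : (0 : ℝ) < M := by linarith
  set b : ℝ := (M : ℝ) ^ α with hb
  have hb1 : 1 ≤ b := Real.one_le_rpow hM1.le hα0.le
  have hb2 : 256 * b ≤ (M : ℝ) ^ d := by
    have h1 : (256 : ℝ) ≤ (M : ℝ) ^ ((d : ℝ) - α) :=
      (Real.rpow_inv_le_iff_of_pos (by norm_num) hM0.le hdα).1
        (((le_max_right _ _).trans hm).trans (by linarith))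
    rw [← Real.rpow_natCast, ← sub_add_cancel (d : ℝ) α, Real.rpow_add hM0]
    gcongr
  have hbj : ∀ j : ℕ, (((M : ℝ)⁻¹) ^ j) ^ α = (b ^ j)⁻¹ := fun j => by
    rw [inv_pow, Real.inv_rpow (by positivity), hb, ← Real.rpow_natCast, ← Real.rpow_natCast,
      ← Real.rpow_mul hM0.le, ← Real.rpow_mul hM0.le, mul_comm]
  obtain ⟨K, hK⟩ := exists_branching b hb1
  obtain ⟨v, u, R, hv, hR⟩ := exists_lacunary M (by omega)
  obtain ⟨e, rfl⟩ : ∃ e, d = e + 2 := ⟨d - 2, by omega⟩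
  obtain ⟨μ, h1, h2, h3, h4⟩ := exists_strip_measure e m hm2' K (fun j => (hK j).1) (fun j => by
    have h1 := (hK j).2.1
    rw [← hM, ← Nat.cast_le (α := ℝ)]
    push_cast
    rw [pow_succ _ (e + 1)] at hb2
    nth_rewrite 2 [hM'] at hb2
    linarith) v u hv
  rw [← hM] at h2 h3
  simp only [prod_inv K fun j => (hK j).1] at h2 h3
  have hP : ∀ j, 0 < ∏ l ∈ Finset.range j, (K l : ℝ) := fun j =>
    Finset.prod_pos fun l _ => by exact_mod_cast (hK l).1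
  refine ⟨μ, h1, ⟨5 ^ (e + 2) * 2 * b, fun x₀ r hr => ?_⟩,
    ⟨(b * (2 * (e + 2 : ℕ)) ^ α)⁻¹, by positivity, fun x₀ hx₀ r hr hr1 => ?_⟩, ?_⟩
  · have h5 : (1 : ℝ) ≤ 5 ^ (e + 2) := one_le_pow₀ (by norm_num)
    rcases le_or_gt 1 r with h6 | h6
    · refine le_trans prob_le_one (ENNReal.one_le_ofReal.2 ?_)
      exact one_le_mul_of_one_le_of_one_le (by nlinarith) (Real.one_le_rpow h6 hα0.le)
    obtain ⟨j, h7, h8⟩ := exists_nat_pow_near_of_lt_one hr h6.le (inv_pos.2 hM0)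
      (inv_lt_one_of_one_lt₀ hM1)
    refine le_trans (measure_mono fun x hx => ?_) ((h2 j x₀).trans ?_)
    · rw [mem_closedBall, dist_pi_le_iff (by positivity)]
      intro i
      rw [dist_eq_norm, one_div, ← inv_pow]
      refine le_trans (Real.le_sqrt_of_sq_le ?_) ((le_of_lt hx).trans h8)
      exact Finset.single_le_sum (f := fun i => ‖x i - x₀ i‖ ^ 2) (fun i _ => by positivity)
        (Finset.mem_univ i)
    · rw [show (5 : ℝ≥0∞) ^ (e + 2) = ENNReal.ofReal (5 ^ (e + 2)) by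
        rw [ENNReal.ofReal_pow (by norm_num)]; simp, ← ENNReal.ofReal_mul (by positivity),
        mul_assoc, mul_assoc]
      refine ENNReal.ofReal_le_ofReal (mul_le_mul_of_nonneg_left ?_ (by positivity))
      have h9 : (b ^ (j + 1))⁻¹ ≤ r ^ α := by
        rw [← hbj]
        gcongr
      have h10 := (hK j).2.2.1
      rw [inv_le_iff_one_le_mul₀ (by positivity), pow_succ] at h9
      rw [inv_le_iff_one_le_mul₀ (hP j)]
      have h11 : r ^ α * b * b ^ j ≤ r ^ α * b * (2 * ∏ l ∈ Finset.range j, (K l : ℝ)) := by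
        gcongr
      linarith
  · have h5 : 0 < r / (2 * (e + 2 : ℕ)) := by positivity
    obtain ⟨j, h7, h8⟩ := exists_nat_pow_near_of_lt_one h5
      (div_le_one_of_le₀ (by linarith) (by positivity)) (inv_pos.2 hM0) (inv_lt_one_of_one_lt₀ hM1)
    refine le_trans (ENNReal.ofReal_le_ofReal ?_) ((h3 (j + 1) x₀ hx₀).trans
      (measure_mono fun x hx => ?_))
    · have h9 : (r / (2 * (e + 2 : ℕ))) ^ α ≤ (b ^ j)⁻¹ := by
        rw [← hbj]
        gcongr
      refine le_trans ?_ (inv_anti₀ (hP _) (hK (j + 1)).2.2.2)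
      rw [Real.div_rpow hr.le (by positivity)] at h9
      rw [pow_succ' b, mul_inv, mul_inv, mul_assoc, ← div_eq_inv_mul (r ^ α)]
      gcongr
    · rw [mem_closedBall, dist_pi_le_iff (by positivity)] at hx
      rw [inv_pow, lt_div_iff₀ (by positivity)] at h7
      refine lt_of_le_of_lt (Real.sqrt_le_iff.2 ⟨by positivity, ?_⟩) h7
      have h9 : ∀ i ∈ Finset.univ, ‖x i - x₀ i‖ ^ 2 ≤ (2 / (M : ℝ) ^ (j + 1)) ^ 2 := fun i _ => by
        rw [← dist_eq_norm]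
        gcongr
        exact hx i
      refine (Finset.sum_le_card_nsmul _ _ _ h9).trans ?_
      rw [Finset.card_univ, Fintype.card_fin, nsmul_eq_mul, div_eq_mul_inv]
      have h10 : 0 ≤ (((M : ℝ) ^ (j + 1))⁻¹) ^ 2 := by positivity
      generalize ((e + 2 : ℕ) : ℝ) = D at *
      have h11 : 0 ≤ D * (D - 1) := by nlinarith
      nlinarith [mul_nonneg h10 h11]
  · rintro ⟨C, hC⟩
    obtain ⟨N, hN⟩ := exists_nat_gt (max 0 (4 * C))
    obtain ⟨n, S, h5, h6, h7⟩ := fails e M (by omega) v u R (fun j => ⟨(hv j).1, (hv j).2.1⟩) hR μ h4 N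
    have h8 := hC n S (fun _ => 1) h6
    simp only [one_mul] at h8
    rw [integral_sq_sum, h5] at h8
    nlinarith [(le_max_left _ _).trans_lt hN, (le_max_right _ _).trans_lt hN]

end Pool.Agent.Results.MP_c22f6b_an.Ahlfors
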