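import Mathlib
import Pool.Agent.FS.Gauge22.Core

set_option autoImplicit false

namespace Pool.Agent.Results.MP_c22f6b_an.GaugeIff

open MeasureTheory Metric Filter Topology
open Pool.Agent.Lib.MP_c22f6b_an Pool.Agent.FS.Gauge22

/-- A bound `μ (B_r) ≤ C h r` on the mass of balls forces the trace inequality for Laplace
eigenfunctions on the flat torus exactly when `h r / r ^ d` does not tend to infinity. -/
theorem result (d : ℕ) (hd : 2 ≤ d) (h : ℝ → ℝ) (hpos : ∀ r, 0 < r → 0 < h r)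
    (hmono : MonotoneOn h (Set.Ioi 0)) :
    (∀ μ : Measure (Fin d → UnitAddCircle), IsProbabilityMeasure μ →
      (∃ C : ℝ, ∀ (x₀ : Fin d → UnitAddCircle) (r : ℝ), 0 < r →
        μ {x | Real.sqrt (∑ i, ‖x i - x₀ i‖ ^ 2) < r} ≤ ENNReal.ofReal (C * h r)) →
      ∃ C : ℝ, ∀ (n : ℕ) (S : Finset (Fin d → ℤ)) (a : (Fin d → ℤ) → ℂ),
        (∀ k ∈ S, ∑ i, k i ^ 2 = (n : ℤ)) →
        ∫ x, ‖∑ k ∈ S, a k * UnitAddTorus.mFourier k x‖ ^ 2 ∂μ ≤
          C * ∫ x : Fin d → UnitAddCircle, ‖∑ k ∈ S, a k * UnitAddTorus.mFourier k x‖ ^ 2) ↔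
    ¬ Tendsto (fun r : ℝ => h r / r ^ d) (𝓝[>] 0) atTop := by
  constructor
  · intro hall ht
    obtain ⟨μ, h1, h2, h3⟩ := fails d hd h hpos hmono fun A => by
      obtain ⟨u, hu, hsub⟩ := mem_nhdsGT_iff_exists_Ioo_subset.1 (ht.eventually_ge_atTop A)
      exact ⟨u, hu, fun r hr h1 => hsub ⟨hr, h1⟩⟩
    exact h3 (hall μ h1 h2)
  · rintro ht μ hμ ⟨C, hC⟩
    rw [Filter.tendsto_atTop] at ht
    obtain ⟨K, hK⟩ := not_forall.1 ht
    have hd' : (2 : ℝ) ≤ d := by exact_mod_cast hd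
    refine ⟨max C 1 * max K 1 * d ^ d, fun n S a _ => dominated μ (by positivity)
      (fun δ hδ => ?_) ?_ fun x => by positivity⟩
    · obtain ⟨r, hr1, hr2⟩ := ((not_eventually.1 hK).and_eventually (Ioo_mem_nhdsGT hδ)).exists
      have hr : 0 < r := hr2.1
      refine ⟨r / (2 * d), by positivity,
        (div_le_self hr.le (by linarith)).trans_lt hr2.2, fun z => ?_⟩
      refine ((measure_mono (ball_sub hd z hr)).trans (hC z r hr)).trans
        (ENNReal.ofReal_le_ofReal ?_)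
      have e : max C 1 * max K 1 * (d : ℝ) ^ d * (2 * (r / (2 * d))) ^ d =
          max C 1 * (max K 1 * r ^ d) := by
        rw [mul_assoc, mul_assoc, ← mul_pow]
        congr 3
        field_simp
      have h1 : h r ≤ max K 1 * r ^ d := by
        rw [← div_le_iff₀ (by positivity)]
        exact (not_le.1 hr1).le.trans (le_max_left _ _)
      rw [e]
      exact mul_le_mul (le_max_left _ _) h1 (hpos r hr).le (by positivity)
    · exact (continuous_finsetSum _ fun k _ =>
        continuous_const.mul (UnitAddTorus.mFourier k).continuous).norm.pow 2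

end Pool.Agent.Results.MP_c22f6b_an.GaugeIff
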