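import Mathlib
import Pool.Agent.Lib.MP_c22f6b_an.Quant

set_option autoImplicit false

namespace Pool.Agent.Results.MP_c22f6b_an.PolyLoss

open MeasureTheory Metric
open scoped ENNReal
open Pool.Agent.Lib.MP_c22f6b_an

private lemma spheres (d : ℕ) (hd : 2 ≤ d) (α : ℝ) (hα : α < d) :
    ∃ (n : ℕ → ℕ) (S : ℕ → Finset (Fin d → ℤ)) (R : ℕ → ℝ),
      (∀ j, ∀ k ∈ S j, ∑ i, k i ^ 2 = (n j : ℤ)) ∧ (∀ j, 1 ≤ R j) ∧ (∀ j, (n j : ℝ) ≤ R j ^ 2) ∧
      (∀ j, 0 < (S j).card) ∧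
      ∀ γ : ℝ, 0 ≤ γ → (γ ≤ 0 ∨ γ < (d - 2) * (d - α) / d) → ∀ C : ℝ, 0 < C → ∃ j,
        C * (2 * (16 * d * R j) ^ (d / (d - α))) ^ γ < 2⁻¹ ^ (j + 1) * ((S j).card / 4) := by
  have hdα : 0 < (d : ℝ) - α := by linarith
  have h7 : ∀ j : ℕ, (2⁻¹ : ℝ) ^ (j + 1) = (2 * 2 ^ j)⁻¹ := fun j => by
    rw [inv_pow, pow_succ, mul_comm]
  rcases hd.eq_or_lt with h2 | h3
  · choose n S hS hSn using fun j : ℕ => exists_lattice_points d hd (4 ^ (j + 2))
    refine ⟨n, S, fun j => n j + 1, hSn, fun j => by simp, fun j => by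
      nlinarith [Nat.cast_nonneg (α := ℝ) (n j)], fun j => by rw [hS]; positivity,
      fun γ h0 h1 C _ => ?_⟩
    have h4 : γ = 0 := by
      refine le_antisymm (h1.elim id fun h1 => h1.le.trans ?_) h0
      rw [← h2]
      simp
    obtain ⟨j, hj⟩ := pow_unbounded_of_one_lt C (by norm_num : (1 : ℝ) < 2)
    refine ⟨j, ?_⟩
    rw [h4, Real.rpow_zero, mul_one, hS, h7]
    have h6 : ((4 ^ (j + 2) : ℕ) : ℝ) = 16 * (2 ^ j) ^ 2 := by
      push_cast
      rw [pow_add, ← pow_mul, mul_comm j 2, pow_mul]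
      norm_num
      ring
    rw [h6]
    have hp : (0 : ℝ) < 2 ^ j := by positivity
    generalize (2 : ℝ) ^ j = t at hj hp
    rw [show (2 * t)⁻¹ * (16 * t ^ 2 / 4) = 2 * t by field_simp; ring]
    linarith
  · have hd3 : (3 : ℝ) ≤ d := by exact_mod_cast h3
    choose n S hS hSn hn using fun j : ℕ => exists_many_points d h3 (2 ^ (j * j)) (by positivity)
    refine ⟨n, S, fun j => (d : ℝ) ^ 2 * (2 ^ (j * j) : ℕ), hSn, fun j => ?_, hn,
      fun j => lt_of_lt_of_le (by positivity) (hS j), fun γ h0 h1 C hC => ?_⟩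
    · refine one_le_mul_of_one_le_of_one_le (one_le_pow₀ (by linarith)) ?_
      exact_mod_cast Nat.one_le_two_pow
    have h4 : γ < (d - 2) * (d - α) / d :=
      h1.elim (fun h1 => h1.trans_lt (div_pos (mul_pos (by linarith) hdα) (by linarith))) id
    set s : ℝ := d / (d - α) with hs
    have h5 : 0 < d - 2 - s * γ := by
      rw [lt_div_iff₀ (by linarith)] at h4
      rw [sub_pos, hs, div_mul_eq_mul_div, div_lt_iff₀ hdα]
      linarith
    set η : ℝ := d - 2 - s * γ with hη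
    set K : ℝ := (2 * (16 * d * d ^ 2) ^ s) ^ γ with hK
    have hK0 : 0 < K := by positivity
    obtain ⟨j₁, hj₁⟩ := pow_unbounded_of_one_lt (8 * C * K) (by norm_num : (1 : ℝ) < 2)
    obtain ⟨j₂, hj₂⟩ := exists_nat_ge (2 / η)
    set j := max j₁ j₂ with hj
    have a1 : 8 * C * K < 2 ^ j := hj₁.trans_le (pow_le_pow_right₀ one_le_two (le_max_left _ _))
    have a2 : 2 ≤ j * η := by
      rw [div_le_iff₀ h5] at hj₂
      refine hj₂.trans (mul_le_mul_of_nonneg_right ?_ h5.le)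
      exact_mod_cast le_max_right _ _
    refine ⟨j, ?_⟩
    set L : ℝ := ((2 ^ (j * j) : ℕ) : ℝ) with hL
    have hL0 : 0 < L := by positivity
    have a3 : (2 * (16 * d * (d ^ 2 * L)) ^ s) ^ γ = K * L ^ (s * γ) := by
      rw [← mul_assoc, Real.mul_rpow (by positivity) hL0.le, ← mul_assoc,
        Real.mul_rpow (by positivity) (by positivity), ← Real.rpow_mul hL0.le]
    have a4 : L ^ (s * γ) * L ^ η ≤ (S j).card := by
      rw [← Real.rpow_add hL0, show s * γ + η = ((d - 2 : ℕ) : ℝ) by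
        rw [hη, Nat.cast_sub hd]; push_cast; ring, Real.rpow_natCast, hL]
      exact_mod_cast hS j
    have a5 : (2 : ℝ) ^ j * 2 ^ j ≤ L ^ η := by
      rw [hL, Nat.cast_pow, Nat.cast_ofNat, ← Real.rpow_natCast 2 (j * j),
        ← Real.rpow_mul zero_le_two, ← pow_add, ← Real.rpow_natCast]
      refine Real.rpow_le_rpow_of_exponent_le one_le_two ?_
      push_cast
      nlinarith [Nat.cast_nonneg (α := ℝ) j]
    rw [a3, h7]
    have hp : (0 : ℝ) < 2 ^ j := by positivity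
    have hq : 0 < L ^ (s * γ) := by positivity
    generalize (2 : ℝ) ^ j = t at a1 a5 hp
    generalize L ^ (s * γ) = q at a4 hq
    rw [inv_mul_eq_div, lt_div_iff₀ (by positivity)]
    have a6 : q * (t * t) ≤ (S j).card := (mul_le_mul_of_nonneg_left a5 hq.le).trans a4
    have a7 : q * t * (8 * C * K) < q * t * t := mul_lt_mul_of_pos_left a1 (by positivity)
    nlinarith

/-- For every `d ≥ 2` and every `0 ≤ α < d` there is an upper `α`-regular Borel probability measure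
on the flat torus for which the trace inequality for Laplace eigenfunctions fails, even with a loss
of `(1 + λ) ^ γ` for any `γ < (d - 2) (d - α) / d`. -/
theorem result (d : ℕ) (hd : 2 ≤ d) (α : ℝ) (hα0 : 0 ≤ α) (hα : α < d) :
    ∃ μ : Measure (Fin d → UnitAddCircle), IsProbabilityMeasure μ ∧
      (∃ C : ℝ, ∀ (x₀ : Fin d → UnitAddCircle) (r : ℝ), 0 < r →
        μ {x | Real.sqrt (∑ i, ‖x i - x₀ i‖ ^ 2) < r} ≤ ENNReal.ofReal (C * r ^ α)) ∧
      ∀ γ : ℝ, (γ ≤ 0 ∨ γ < ((d : ℝ) - 2) * (d - α) / d) →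
        ¬ ∃ C : ℝ, ∀ (n : ℕ) (S : Finset (Fin d → ℤ)) (a : (Fin d → ℤ) → ℂ),
          (∀ k ∈ S, ∑ i, k i ^ 2 = (n : ℤ)) →
          ∫ x, ‖∑ k ∈ S, a k * UnitAddTorus.mFourier k x‖ ^ 2 ∂μ ≤
            C * (1 + Real.sqrt n) ^ γ *
              ∫ x : Fin d → UnitAddCircle, ‖∑ k ∈ S, a k * UnitAddTorus.mFourier k x‖ ^ 2 := by
  obtain ⟨n, S, R, hSn, hR, hn, hS, key⟩ := spheres d hd α hα
  choose ν hνp hνreg n' S' hc hS' hn' hae using fun j =>
    one_scale d hd α hα0 hα (n j) (S j) (hSn j) (R j) (hR j) (hn j)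
  obtain ⟨μ, h1, h2, h3⟩ := sum_scales d α ν hνp hνreg S' fun j => by rw [hc]; exact hae j
  refine ⟨μ, h1, ⟨6 ^ d, h2⟩, ?_⟩
  rintro γ hγ ⟨C, hC⟩
  have h4 : ∀ j, (2⁻¹ : ℝ) ^ (j + 1) * ((S j).card / 4) ≤ C * (1 + √(n' j)) ^ γ := fun j => by
    have h5 := hC (n' j) (S' j) (fun _ => 1) (hS' j)
    simp only [one_mul] at h5
    have h6 := (h3 j).trans h5
    rw [integral_sq_sum, hc] at h6
    have h7 : (0 : ℝ) < (S j).card := by exact_mod_cast hS j
    refine le_of_mul_le_mul_right (le_of_eq_of_le ?_ h6) h7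
    ring
  have hC0 : 0 < C := by
    have h7 : (0 : ℝ) < (S 0).card := by exact_mod_cast hS 0
    exact pos_of_mul_pos_left (lt_of_lt_of_le (by positivity) (h4 0)) (by positivity)
  obtain ⟨j, hj⟩ := key (max γ 0) (le_max_right _ _) (by
    rcases le_total γ 0 with h | h
    · exact Or.inl (max_eq_right h).le
    · rwa [max_eq_left h]) C hC0
  refine absurd ((h4 j).trans (mul_le_mul_of_nonneg_left ?_ hC0.le)) (not_le.2 hj)
  exact (Real.rpow_le_rpow_of_exponent_le (le_add_of_nonneg_right (Real.sqrt_nonneg _))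
    (le_max_left _ _)).trans (Real.rpow_le_rpow (by positivity) (hn' j) (le_max_right _ _))

end Pool.Agent.Results.MP_c22f6b_an.PolyLoss
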